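import Pool.Agent.Y271.RO.Stm

/-!
# RO-TUNA: cheap polygons give case A
-/

set_option autoImplicit false

namespace Pool.Agent.Y587.RO

open MeasureTheory Set Metric Filter Topology
open scoped InnerProductSpace ENNReal NNReal ComplexConjugate ContDiff
open Pool.Agent.Y271.RO

theorem bound4 {Q s t ε : ℝ} (hε : 0 < ε)
    (h : Q ^ 4 * (s ^ 2 + ε ^ 2) = s ^ 4 * (t ^ 2 + ε ^ 2)) :
    Q ^ 4 ≤ s ^ 2 * (t ^ 2 + ε ^ 2) := by
  have h1 : 0 < s ^ 2 + ε ^ 2 := by positivity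
  have h2 : Q ^ 4 * (s ^ 2 + ε ^ 2) ≤ s ^ 2 * (t ^ 2 + ε ^ 2) * (s ^ 2 + ε ^ 2) := by
    rw [h]
    have h3 : 0 ≤ s ^ 2 * (t ^ 2 + ε ^ 2) * ε ^ 2 := by positivity
    nlinarith [h3]
  exact le_of_mul_le_mul_right h2 h1

theorem main : Pool.Agent.Y271.RO.S_TUNA := by
  intro hPCB hPOL f a r hr hfm hfi hyp
  choose n hn hC using hyp
  choose z m hz0 hzm1 hzm2 hcost using hC
  have hεp : ∀ k, (0 : ℝ) < 1 / ((n k : ℝ) + 1) := fun k => by positivity
  have hε1 : ∀ k, 1 / ((n k : ℝ) + 1) ≤ 1 := fun k => by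
    rw [div_le_one (by positivity)]
    have : (0 : ℝ) ≤ n k := Nat.cast_nonneg _
    linarith
  have hk1 : ∀ k : ℕ, 1 / ((k : ℝ) + 1) ≤ 1 := fun k => by
    rw [div_le_one (by positivity)]
    have : (0 : ℝ) ≤ k := Nat.cast_nonneg _
    linarith
  choose Q hQ1 hQ2 hQ3 using fun k => hPOL (z k) (m k) (1 / ((n k : ℝ) + 1)) (hεp k)
  obtain ⟨b, hb, σ, hσ, hlim⟩ := (isCompact_closedBall a (r + 1)).tendsto_subseq
    (x := fun k => z k (m k)) (fun k => by
      rw [mem_closedBall, dist_eq_norm]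
      exact hzm2 k)
  have hbd : ∀ k, ∀ w ∈ ball a r, ‖Q k w‖ ≤ 2 * r + 2 := by
    intro k w hw
    rw [mem_ball, dist_eq_norm] at hw
    have h0 := hz0 k
    rw [mem_ball, dist_eq_norm] at h0
    have hs : ‖w - z k 0‖ ≤ r + 1 := by
      calc ‖w - z k 0‖ = ‖(w - a) - (z k 0 - a)‖ := by congr 1; ring
        _ ≤ ‖w - a‖ + ‖z k 0 - a‖ := norm_sub_le _ _
        _ ≤ r + 1 := by linarith [hk1 k]
    have ht : ‖w - z k (m k)‖ ≤ 2 * r + 1 := by
      calc ‖w - z k (m k)‖ = ‖(w - a) - (z k (m k) - a)‖ := by congr 1; ring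
        _ ≤ ‖w - a‖ + ‖z k (m k) - a‖ := norm_sub_le _ _
        _ ≤ 2 * r + 1 := by linarith [hzm2 k]
    have h1 := bound4 (hεp k) (hQ2 k w)
    have h2 : ‖w - z k 0‖ ^ 2 ≤ (r + 1) ^ 2 := pow_le_pow_left₀ (norm_nonneg _) hs 2
    have h3 : ‖w - z k (m k)‖ ^ 2 ≤ (2 * r + 1) ^ 2 := pow_le_pow_left₀ (norm_nonneg _) ht 2
    have h4 : (1 / ((n k : ℝ) + 1)) ^ 2 ≤ 1 := pow_le_one₀ (hεp k).le (hε1 k)
    have h5 : ‖Q k w‖ ^ 4 ≤ (2 * r + 2) ^ 4 := by
      calc ‖Q k w‖ ^ 4 ≤ ‖w - z k 0‖ ^ 2 *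
            (‖w - z k (m k)‖ ^ 2 + (1 / ((n k : ℝ) + 1)) ^ 2) := h1
        _ ≤ (r + 1) ^ 2 * ((2 * r + 1) ^ 2 + 1) :=
            mul_le_mul h2 (by linarith) (by positivity) (by positivity)
        _ ≤ (2 * r + 2) ^ 2 * (2 * r + 2) ^ 2 :=
            mul_le_mul (by nlinarith) (by nlinarith) (by positivity) (by positivity)
        _ = (2 * r + 2) ^ 4 := by ring
    exact (pow_le_pow_iff_left₀ (norm_nonneg _) (by linarith) (by norm_num)).1 h5
  have hσt := hσ.tendsto_atTop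
  have hεlim : Tendsto (fun j => 1 / ((n (σ j) : ℝ) + 1)) atTop (𝓝 0) := by
    have h1 : Tendsto (fun j => n (σ j)) atTop atTop :=
      tendsto_atTop_mono (fun j => hn (σ j)) hσt
    exact (tendsto_one_div_add_atTop_nhds_zero_nat (𝕜 := ℝ)).comp h1
  have hklim : Tendsto (fun j => 1 / ((σ j : ℝ) + 1)) atTop (𝓝 0) :=
    (tendsto_one_div_add_atTop_nhds_zero_nat (𝕜 := ℝ)).comp hσt
  have hz0lim : Tendsto (fun j => z (σ j) 0) atTop (𝓝 a) := by
    rw [tendsto_iff_norm_sub_tendsto_zero]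
    refine squeeze_zero (fun _ => norm_nonneg _) (fun j => ?_) hklim
    have h0 := hz0 (σ j)
    rw [mem_ball, dist_eq_norm] at h0
    exact h0.le
  refine ⟨b, fun j => Q (σ j), 2 * r + 2, ?_, fun j => hQ1 _, fun j => hbd _, ?_, ?_⟩
  · exact ge_of_tendsto (hlim.sub_const a).norm (Eventually.of_forall fun j => hzm1 (σ j))
  · have hh : Integrable (fd f a r) := by
      unfold fd
      rw [integrable_indicator_iff measurableSet_ball]
      exact hfi.norm
    have hh0 : ∀ w, 0 ≤ fd f a r w := fun w =>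
      Set.indicator_nonneg (fun _ _ => norm_nonneg _) w
    have hle : ∀ k, ∫⁻ w in ball a r, ‖f w * db (Q k) w‖ₑ ≤
        ENNReal.ofReal (Real.pi / 2 * (2 * r + 2) * (1 / ((k : ℝ) + 1))) := by
      intro k
      obtain ⟨c1, c2, c3⟩ := hPCB (fd f a r) hh hh0 (1 / ((n k : ℝ) + 1)) (hεp k) (z k) (m k)
      obtain ⟨g, hg⟩ : ∃ g : ℂ → ℝ, g = fun w => Real.pi / 2 * (2 * r + 2) *
        (fd f a r w * cost (fun y => pk (1 / ((n k : ℝ) + 1)) (y - w)) (z k) (m k)) := ⟨_, rfl⟩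
      have hg0 : ∀ w, 0 ≤ g w := by
        intro w
        rw [hg]
        have := c1 w
        have := hh0 w
        have := Real.pi_pos
        positivity
      have hgi : Integrable g := by
        rw [hg]
        exact c2.const_mul _
      calc ∫⁻ w in ball a r, ‖f w * db (Q k) w‖ₑ ≤ ∫⁻ w in ball a r, ENNReal.ofReal (g w) := by
            refine setLIntegral_mono' measurableSet_ball fun w hw => ?_
            rw [← ofReal_norm]
            refine ENNReal.ofReal_le_ofReal ?_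
            rw [norm_mul, hg]
            have e1 : fd f a r w = ‖f w‖ := Set.indicator_of_mem hw _
            show ‖f w‖ * ‖db (Q k) w‖ ≤ Real.pi / 2 * (2 * r + 2) *
              (fd f a r w * cost (fun y => pk (1 / ((n k : ℝ) + 1)) (y - w)) (z k) (m k))
            rw [e1]
            have e2 := hQ3 k w
            have e3 := hbd k w hw
            have e4 := c1 w
            calc ‖f w‖ * ‖db (Q k) w‖ ≤ ‖f w‖ * (Real.pi / 2 * ‖Q k w‖ *
                  cost (fun y => pk (1 / ((n k : ℝ) + 1)) (y - w)) (z k) (m k)) :=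
                  mul_le_mul_of_nonneg_left e2 (norm_nonneg _)
              _ ≤ ‖f w‖ * (Real.pi / 2 * (2 * r + 2) *
                  cost (fun y => pk (1 / ((n k : ℝ) + 1)) (y - w)) (z k) (m k)) := by
                  refine mul_le_mul_of_nonneg_left ?_ (norm_nonneg _)
                  refine mul_le_mul_of_nonneg_right ?_ e4
                  exact mul_le_mul_of_nonneg_left e3 (by positivity)
              _ = _ := by ring
        _ ≤ ∫⁻ w, ENNReal.ofReal (g w) := setLIntegral_le_lintegral _ _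
        _ = ENNReal.ofReal (∫ w, g w) :=
            (ofReal_integral_eq_lintegral_ofReal hgi (Eventually.of_forall hg0)).symm
        _ ≤ ENNReal.ofReal (Real.pi / 2 * (2 * r + 2) * (1 / ((k : ℝ) + 1))) := by
            refine ENNReal.ofReal_le_ofReal ?_
            rw [hg, integral_const_mul, c3]
            exact mul_le_mul_of_nonneg_left (hcost k).le (by positivity)
    have hup : Tendsto (fun j => ENNReal.ofReal (Real.pi / 2 * (2 * r + 2) *
        (1 / ((σ j : ℝ) + 1)))) atTop (𝓝 0) := by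
      have h1 := (hklim.const_mul (Real.pi / 2 * (2 * r + 2)))
      rw [mul_zero] at h1
      have h2 := ENNReal.tendsto_ofReal h1
      rw [ENNReal.ofReal_zero] at h2
      exact h2
    exact tendsto_of_tendsto_of_tendsto_of_le_of_le tendsto_const_nhds hup
      (fun _ => bot_le) (fun j => hle (σ j))
  · intro w hw
    have hs : Tendsto (fun j => ‖w - z (σ j) 0‖) atTop (𝓝 ‖w - a‖) :=
      (hz0lim.const_sub w).norm
    have ht : Tendsto (fun j => ‖w - z (σ j) (m (σ j))‖) atTop (𝓝 ‖w - b‖) :=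
      (hlim.const_sub w).norm
    have hnum : Tendsto (fun j => ‖w - z (σ j) (m (σ j))‖ ^ 2 +
        (1 / ((n (σ j) : ℝ) + 1)) ^ 2) atTop (𝓝 (‖w - b‖ ^ 2)) := by
      have := (ht.pow 2).add (hεlim.pow 2)
      simpa using this
    have h4 : Tendsto (fun j => ‖Q (σ j) w‖ ^ 4) atTop (𝓝 (‖w - a‖ ^ 2 * ‖w - b‖ ^ 2)) := by
      by_cases hwa : w = a
      · have e0 : ‖w - a‖ ^ 2 * ‖w - b‖ ^ 2 = 0 := by rw [hwa]; simp
        rw [e0]
        refine squeeze_zero (fun _ => by positivity)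
          (fun j => bound4 (hεp (σ j)) (hQ2 (σ j) w)) ?_
        have := (hs.pow 2).mul hnum
        rw [e0] at this
        exact this
      · have hpos : 0 < ‖w - a‖ := norm_pos_iff.2 (sub_ne_zero.2 hwa)
        have hden : Tendsto (fun j => ‖w - z (σ j) 0‖ ^ 2 +
            (1 / ((n (σ j) : ℝ) + 1)) ^ 2) atTop (𝓝 (‖w - a‖ ^ 2)) := by
          have := (hs.pow 2).add (hεlim.pow 2)
          simpa using this
        have h5 := ((hs.pow 4).mul hnum).div hden (by positivity)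
        have e1 : ‖w - a‖ ^ 4 * ‖w - b‖ ^ 2 / ‖w - a‖ ^ 2 = ‖w - a‖ ^ 2 * ‖w - b‖ ^ 2 := by
          field_simp
        rw [e1] at h5
        refine h5.congr fun j => ?_
        have hp : 0 < ‖w - z (σ j) 0‖ ^ 2 + (1 / ((n (σ j) : ℝ) + 1)) ^ 2 := by
          have := hεp (σ j)
          positivity
        show ‖w - z (σ j) 0‖ ^ 4 * (‖w - z (σ j) (m (σ j))‖ ^ 2 +
          (1 / ((n (σ j) : ℝ) + 1)) ^ 2) / (‖w - z (σ j) 0‖ ^ 2 +
          (1 / ((n (σ j) : ℝ) + 1)) ^ 2) = _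
        rw [div_eq_iff hp.ne', hQ2]
    have h5 := (Real.continuous_sqrt.tendsto _).comp h4
    have e2 : Real.sqrt (‖w - a‖ ^ 2 * ‖w - b‖ ^ 2) = ‖w - a‖ * ‖w - b‖ := by
      rw [← mul_pow]
      exact Real.sqrt_sq (by positivity)
    rw [e2] at h5
    refine h5.congr fun j => ?_
    show Real.sqrt (‖Q (σ j) w‖ ^ 4) = ‖Q (σ j) w‖ ^ 2
    rw [show ‖Q (σ j) w‖ ^ 4 = (‖Q (σ j) w‖ ^ 2) ^ 2 by ring]
    exact Real.sqrt_sq (by positivity)

end Pool.Agent.Y587.RO
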